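import Mathlib

set_option autoImplicit false

namespace Pool.Agent.Results.MP_705ba2_lc.DoublyExpGap

open Complex

/-- The rational point `(a.1, a.2)` of the Euclidean plane, the plane being `ℂ`. -/
def pt (a : ℚ × ℚ) : ℂ := ⟨(a.1 : ℝ), (a.2 : ℝ)⟩

/-- `Feasible L ρ` says that `Opt(L) ≤ ρ`: one point can be chosen on each of the segments
`[(L i).1, (L i).2]` so that all pairwise distances are at most `ρ`. -/
def Feasible {m : ℕ} (L : Fin m → (ℚ × ℚ) × (ℚ × ℚ)) (ρ : ℝ) : Prop :=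
  ∃ p : Fin m → ℂ, (∀ i, p i ∈ segment ℝ (pt (L i).1) (pt (L i).2)) ∧
    ∀ i j, dist (p i) (p j) ≤ ρ

/-- The height of a rational number: the larger one of numerator (in absolute value) and
denominator. -/
def height (q : ℚ) : ℕ := max q.num.natAbs q.den

/-- All coordinates of all endpoints have height at most `B`. -/
def HeightLe {m : ℕ} (L : Fin m → (ℚ × ℚ) × (ℚ × ℚ)) (B : ℕ) : Prop :=
  ∀ i, height (L i).1.1 ≤ B ∧ height (L i).1.2 ≤ B ∧ height (L i).2.1 ≤ B ∧
    height (L i).2.2 ≤ B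

/-! ### Heights -/

lemma height_le_of {q : ℚ} {D : ℕ} (hD : 0 < D) (h : ∃ a : ℤ, q * D = a) (hq : |q| ≤ 2) :
    height q ≤ 2 * D := by
  obtain ⟨a, ha⟩ := h
  have hD' : (D : ℚ) ≠ 0 := by exact_mod_cast hD.ne'
  have hq' : q = (a : ℚ) / ((D : ℤ) : ℚ) := by
    rw [eq_div_iff (by exact_mod_cast hD')]
    exact_mod_cast ha
  have hden : q.den ≤ D := by
    have h1 : ((q.den : ℤ)) ∣ (D : ℤ) := by
      rw [hq', ← Rat.divInt_eq_div]
      exact Rat.den_dvd a D
    exact Nat.le_of_dvd hD (by exact_mod_cast h1)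
  have hnum : (q.num.natAbs : ℚ) ≤ 2 * q.den := by
    have h2 : |q| * q.den = q.num.natAbs := by
      have h3 : q * q.den = q.num := Rat.mul_den_eq_num q
      have h4 : |q * q.den| = |(q.num : ℚ)| := by rw [h3]
      rw [abs_mul, Nat.abs_cast] at h4
      rw [h4, Nat.cast_natAbs, Int.cast_abs]
    rw [← h2]
    have : (0 : ℚ) ≤ q.den := by positivity
    nlinarith
  have hnum' : q.num.natAbs ≤ 2 * q.den := by exact_mod_cast hnum
  unfold height
  omega

/-! ### The rational rotation -/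

/-- cosine of the rotation -/
def cq (N : ℕ) : ℚ := ((N : ℚ) ^ 2 - 1) / ((N : ℚ) ^ 2 + 1)

/-- sine of the rotation -/
def sq (N : ℕ) : ℚ := (2 * (N : ℚ)) / ((N : ℚ) ^ 2 + 1)

/-- real and imaginary part of the powers of the rotation -/
def pw (N : ℕ) : ℕ → ℚ × ℚ
  | 0 => (1, 0)
  | k + 1 => ((pw N k).1 * cq N - (pw N k).2 * sq N, (pw N k).1 * sq N + (pw N k).2 * cq N)

lemma cs_sq (N : ℕ) : cq N ^ 2 + sq N ^ 2 = 1 := by
  unfold cq sq
  have : ((N : ℚ) ^ 2 + 1) ≠ 0 := by positivity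
  field_simp
  ring

lemma pw_sq (N : ℕ) (k : ℕ) : (pw N k).1 ^ 2 + (pw N k).2 ^ 2 = 1 := by
  induction k with
  | zero => simp [pw]
  | succ k ih =>
      simp only [pw]
      have := cs_sq N
      nlinarith [ih, this]

lemma pw_int (N : ℕ) (k : ℕ) : (∃ a : ℤ, (pw N k).1 * ((N : ℚ) ^ 2 + 1) ^ k = a) ∧
    ∃ b : ℤ, (pw N k).2 * ((N : ℚ) ^ 2 + 1) ^ k = b := by
  induction k with
  | zero => exact ⟨⟨1, by simp [pw]⟩, ⟨0, by simp [pw]⟩⟩
  | succ k ih =>
      obtain ⟨⟨a, ha⟩, ⟨b, hb⟩⟩ := ih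
      have hne : ((N : ℚ) ^ 2 + 1) ≠ 0 := by positivity
      have hc : cq N * ((N : ℚ) ^ 2 + 1) = (N : ℚ) ^ 2 - 1 := by
        unfold cq
        field_simp
      have hs : sq N * ((N : ℚ) ^ 2 + 1) = 2 * N := by
        unfold sq
        field_simp
      refine ⟨⟨a * ((N : ℤ) ^ 2 - 1) - b * (2 * N), ?_⟩,
        ⟨a * (2 * N) + b * ((N : ℤ) ^ 2 - 1), ?_⟩⟩
      · simp only [pw]
        push_cast
        rw [← ha, ← hb, ← hc, ← hs]
        ring
      · simp only [pw]
        push_cast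
        rw [← ha, ← hb, ← hc, ← hs]
        ring

/-- The rational point `(-1)^k w^(2k) (1 + i t w)`. -/
def Q (N : ℕ) (k : ℕ) (t : ℚ) : ℚ × ℚ :=
  ((-1) ^ k * ((pw N (2 * k)).1 - t * (pw N (2 * k + 1)).2),
    (-1) ^ k * ((pw N (2 * k)).2 + t * (pw N (2 * k + 1)).1))

lemma Q_height (N : ℕ) (hN : 2 ≤ N) (k : ℕ) (a : ℤ) (ha : |a| ≤ 2) :
    height (Q N k (a / (N : ℚ) ^ 2)).1 ≤ 2 * (N ^ 2 + 1) ^ (2 * k + 2) ∧
    height (Q N k (a / (N : ℚ) ^ 2)).2 ≤ 2 * (N ^ 2 + 1) ^ (2 * k + 2) := by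
  have hNpos : 0 < N := by omega
  have hN0 : (N : ℚ) ^ 2 ≠ 0 := by positivity
  have hN4 : (4 : ℚ) ≤ (N : ℚ) ^ 2 := by
    have : (2 : ℚ) ≤ N := by exact_mod_cast hN
    nlinarith
  have ht : |(a : ℚ) / (N : ℚ) ^ 2| ≤ 1 / 2 := by
    rw [abs_div, abs_of_pos (by positivity : (0 : ℚ) < (N : ℚ) ^ 2), div_le_iff₀ (by positivity)]
    have : |(a : ℚ)| ≤ 2 := by exact_mod_cast ha
    linarith
  have hone : ∀ j, |(pw N j).1| ≤ 1 ∧ |(pw N j).2| ≤ 1 := by
    intro j
    have := pw_sq N j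
    constructor
    · rw [← sq_le_one_iff_abs_le_one]
      nlinarith [sq_nonneg (pw N j).2]
    · rw [← sq_le_one_iff_abs_le_one]
      nlinarith [sq_nonneg (pw N j).1]
  have habs : |((-1 : ℚ)) ^ k| = 1 := by
    rw [abs_pow, abs_neg, abs_one, one_pow]
  obtain ⟨⟨A, hA⟩, ⟨B, hB⟩⟩ := pw_int N (2 * k)
  obtain ⟨⟨A', hA'⟩, ⟨B', hB'⟩⟩ := pw_int N (2 * k + 1)
  have hD : 0 < (N ^ 2 + 1) ^ (2 * k + 1) * N ^ 2 := by positivity
  have hle : 2 * ((N ^ 2 + 1) ^ (2 * k + 1) * N ^ 2) ≤ 2 * (N ^ 2 + 1) ^ (2 * k + 2) := by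
    rw [pow_succ (N ^ 2 + 1) (2 * k + 1)]
    gcongr
    omega
  have hsgn : ∃ e : ℤ, ((-1 : ℚ)) ^ k = e := ⟨(-1) ^ k, by push_cast; rfl⟩
  obtain ⟨e, he⟩ := hsgn
  constructor
  · refine le_trans (height_le_of hD ⟨e * (A * ((N : ℤ) ^ 2 + 1) * (N : ℤ) ^ 2 - a * B'), ?_⟩ ?_)
      hle
    · simp only [Q]
      push_cast
      rw [← hA, ← hB', ← he]
      field_simp
      ring
    · simp only [Q]
      rw [abs_mul, habs, one_mul]
      calc |(pw N (2 * k)).1 - (a : ℚ) / (N : ℚ) ^ 2 * (pw N (2 * k + 1)).2|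
          ≤ |(pw N (2 * k)).1| + |(a : ℚ) / (N : ℚ) ^ 2 * (pw N (2 * k + 1)).2| := abs_sub _ _
        _ ≤ 1 + 1 / 2 * 1 := by
            rw [abs_mul]
            exact add_le_add (hone _).1 (mul_le_mul ht (hone _).2 (abs_nonneg _) (by norm_num))
        _ ≤ 2 := by norm_num
  · refine le_trans (height_le_of hD ⟨e * (B * ((N : ℤ) ^ 2 + 1) * (N : ℤ) ^ 2 + a * A'), ?_⟩ ?_)
      hle
    · simp only [Q]
      push_cast
      rw [← hB, ← hA', ← he]
      field_simp
      ring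
    · simp only [Q]
      rw [abs_mul, habs, one_mul]
      calc |(pw N (2 * k)).2 + (a : ℚ) / (N : ℚ) ^ 2 * (pw N (2 * k + 1)).1|
          ≤ |(pw N (2 * k)).2| + |(a : ℚ) / (N : ℚ) ^ 2 * (pw N (2 * k + 1)).1| := abs_add_le _ _
        _ ≤ 1 + 1 / 2 * 1 := by
            rw [abs_mul]
            exact add_le_add (hone _).2 (mul_le_mul ht (hone _).1 (abs_nonneg _) (by norm_num))
        _ ≤ 2 := by norm_num

/-! ### Geometry -/

/-- the rotation as a complex number -/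
noncomputable def w (N : ℕ) : ℂ := ⟨(cq N : ℝ), (sq N : ℝ)⟩

/-- the point with parameter `t` on the line of the `k`-th segment -/
noncomputable def P (N k : ℕ) (t : ℝ) : ℂ := (-1) ^ k * w N ^ (2 * k) * (1 + I * t * w N)

lemma w_pow (N k : ℕ) : w N ^ k = ⟨((pw N k).1 : ℝ), ((pw N k).2 : ℝ)⟩ := by
  induction k with
  | zero => simp [pw, Complex.ext_iff]
  | succ k ih =>
      rw [pow_succ, ih]
      apply Complex.ext
      · simp [pw, w]
      · simp [pw, w]

lemma pt_Q (N k : ℕ) (t : ℚ) : pt (Q N k t) = P N k t := by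
  have h : P N k (t : ℝ) = (-1) ^ k * (w N ^ (2 * k) + I * t * w N ^ (2 * k + 1)) := by
    unfold P
    push_cast
    ring
  rw [h, w_pow, w_pow]
  rcases Nat.even_or_odd k with hk | hk
  · apply Complex.ext
    · simp only [pt, Q, hk.neg_one_pow]
      push_cast
      simp
      ring
    · simp only [pt, Q, hk.neg_one_pow]
      push_cast
      simp
  · apply Complex.ext
    · simp only [pt, Q, hk.neg_one_pow]
      push_cast
      simp
      ring
    · simp only [pt, Q, hk.neg_one_pow]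
      push_cast
      simp

lemma norm_w (N : ℕ) : ‖w N‖ = 1 := by
  have h : (cq N : ℝ) ^ 2 + (sq N : ℝ) ^ 2 = 1 := by exact_mod_cast cs_sq N
  have : ‖w N‖ ^ 2 = 1 := by
    rw [Complex.sq_norm, Complex.normSq_apply]
    simp only [w]
    nlinarith
  nlinarith [norm_nonneg (w N)]

lemma w_conj (N : ℕ) : w N * (starRingEnd ℂ) (w N) = 1 := by
  rw [Complex.mul_conj, Complex.normSq_eq_norm_sq, norm_w]
  simp

lemma adj_dist (N k : ℕ) (t s : ℝ) :
    ‖P N k t - P N (k + 1) s‖ ^ 2 = (2 * (cq N : ℝ) - 2 * (cq N : ℝ) * (sq N : ℝ) * s) ^ 2 +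
      (t + s * ((cq N : ℝ) ^ 2 - (sq N : ℝ) ^ 2)) ^ 2 := by
  have h1 : P N k t - P N (k + 1) s = (-1) ^ k * w N ^ (2 * k) * (w N *
      ((starRingEnd ℂ) (w N) + w N + I * t + I * s * w N ^ 2)) := by
    unfold P
    have := w_conj N
    linear_combination (-(-1) ^ k * w N ^ (2 * k)) * this
  rw [h1, norm_mul, norm_mul, norm_mul, norm_pow, norm_pow, norm_w, norm_neg, norm_one, one_pow,
    one_pow, one_mul, one_mul, one_mul, Complex.sq_norm, Complex.normSq_apply]
  have h2 : (starRingEnd ℂ) (w N) + w N + I * t + I * s * w N ^ 2 =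
      ⟨2 * (cq N : ℝ) - 2 * (cq N : ℝ) * (sq N : ℝ) * s,
        t + s * ((cq N : ℝ) ^ 2 - (sq N : ℝ) ^ 2)⟩ := by
    apply Complex.ext
    · simp [w, pow_two]
      ring
    · simp [w, pow_two]
  rw [h2]
  ring

lemma norm_one_add_sq (x y : ℝ) (h : x ^ 2 + y ^ 2 = 1) (hx : 0 ≤ x) :
    ‖1 + (⟨x, y⟩ : ℂ) ^ 2‖ = 2 * x := by
  have h1 : ‖1 + (⟨x, y⟩ : ℂ) ^ 2‖ ^ 2 = (2 * x) ^ 2 := by
    rw [Complex.sq_norm, Complex.normSq_apply]
    simp [pow_two]
    nlinarith [h]
  have h2 : 0 ≤ 2 * x := by linarith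
  exact (pow_left_inj₀ (norm_nonneg _) h2 two_ne_zero).1 h1

lemma norm_one_sub_sq (x y : ℝ) (h : x ^ 2 + y ^ 2 = 1) (hy : 0 ≤ y) :
    ‖1 - (⟨x, y⟩ : ℂ) ^ 2‖ = 2 * y := by
  have h1 : ‖1 - (⟨x, y⟩ : ℂ) ^ 2‖ ^ 2 = (2 * y) ^ 2 := by
    rw [Complex.sq_norm, Complex.normSq_apply]
    simp [pow_two]
    nlinarith [h]
  have h2 : 0 ≤ 2 * y := by linarith
  exact (pow_left_inj₀ (norm_nonneg _) h2 two_ne_zero).1 h1

section bounds

variable {N : ℕ}

lemma c_ge (hN : 16 ≤ N) : (9 / 10 : ℝ) ≤ (cq N : ℝ) := by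
  have h : (16 : ℝ) ≤ N := by exact_mod_cast hN
  unfold cq
  push_cast
  rw [le_div_iff₀ (by positivity)]
  nlinarith

lemma c_le : (cq N : ℝ) ≤ 1 := by
  unfold cq
  push_cast
  rw [div_le_one (by positivity)]
  linarith

lemma s_pos (hN : 16 ≤ N) : (0 : ℝ) < (sq N : ℝ) := by
  have h : (16 : ℝ) ≤ N := by exact_mod_cast hN
  unfold sq
  push_cast
  positivity

lemma s_mul_le : (sq N : ℝ) * N ≤ 2 := by
  unfold sq
  push_cast
  rw [div_mul_eq_mul_div, div_le_iff₀ (by positivity)]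
  nlinarith

lemma s_mul_ge (hN : 16 ≤ N) : (19 / 10 : ℝ) ≤ (sq N : ℝ) * N := by
  have h : (16 : ℝ) ≤ N := by exact_mod_cast hN
  unfold sq
  push_cast
  rw [div_mul_eq_mul_div, le_div_iff₀ (by positivity)]
  nlinarith

lemma cs_real : (cq N : ℝ) ^ 2 + (sq N : ℝ) ^ 2 = 1 := by exact_mod_cast cs_sq N

lemma pw_real (k : ℕ) : ((pw N k).1 : ℝ) ^ 2 + ((pw N k).2 : ℝ) ^ 2 = 1 := by
  exact_mod_cast pw_sq N k

lemma pw_bounds (hN : 16 ≤ N) (m : ℕ) (hm : (m : ℝ) * (sq N : ℝ) ≤ 1 / 4) :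
    0 ≤ ((pw N m).2 : ℝ) ∧ ((pw N m).2 : ℝ) ≤ m * (sq N : ℝ) ∧
      (9 / 10 : ℝ) ≤ ((pw N m).1 : ℝ) := by
  have hc := c_ge hN
  have hc1 := c_le (N := N)
  have hs := s_pos hN
  induction m with
  | zero =>
      simp [pw]
      norm_num
  | succ m ih =>
      push_cast at hm
      have hm' : (m : ℝ) * (sq N : ℝ) ≤ 1 / 4 := by nlinarith
      obtain ⟨h1, h2, h3⟩ := ih hm'
      have hsq := pw_real (N := N) m
      have hsq' := pw_real (N := N) (m + 1)
      have hx1 : ((pw N m).1 : ℝ) ≤ 1 := by nlinarith [sq_nonneg ((pw N m).2 : ℝ)]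
      have e1 : ((pw N (m + 1)).1 : ℝ) = (pw N m).1 * cq N - (pw N m).2 * sq N := by
        simp only [pw]; push_cast; rfl
      have e2 : ((pw N (m + 1)).2 : ℝ) = (pw N m).1 * sq N + (pw N m).2 * cq N := by
        simp only [pw]; push_cast; rfl
      have hs14 : (sq N : ℝ) ≤ 1 / 4 := by
        have : (0 : ℝ) ≤ m * (sq N : ℝ) := by positivity
        nlinarith
      have g1 : 0 ≤ ((pw N (m + 1)).2 : ℝ) := by
        rw [e2]
        have : 0 ≤ ((pw N m).1 : ℝ) * sq N := mul_nonneg (by linarith) hs.le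
        have : 0 ≤ ((pw N m).2 : ℝ) * cq N := mul_nonneg h1 (by linarith)
        linarith
      have g2 : ((pw N (m + 1)).2 : ℝ) ≤ ((m : ℝ) + 1) * (sq N : ℝ) := by
        rw [e2]
        have a1 : ((pw N m).1 : ℝ) * sq N ≤ 1 * sq N := mul_le_mul_of_nonneg_right hx1 hs.le
        have a2 : ((pw N m).2 : ℝ) * cq N ≤ ((pw N m).2 : ℝ) * 1 :=
          mul_le_mul_of_nonneg_left hc1 h1
        linarith
      have g4 : 0 < ((pw N (m + 1)).1 : ℝ) := by
        rw [e1]
        have a1 : (9 / 10 : ℝ) * (9 / 10) ≤ ((pw N m).1 : ℝ) * cq N :=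
          mul_le_mul h3 hc (by norm_num) (by linarith)
        have a2 : ((pw N m).2 : ℝ) * sq N ≤ 1 / 4 * (1 / 4) :=
          mul_le_mul (by linarith) hs14 hs.le (by norm_num)
        linarith
      refine ⟨g1, by push_cast; exact g2, ?_⟩
      have g5 : ((pw N (m + 1)).2 : ℝ) ≤ 1 / 4 := by linarith
      have g6 : ((pw N (m + 1)).2 : ℝ) ^ 2 ≤ 1 / 16 := by nlinarith
      nlinarith

lemma pw_anti (hN : 16 ≤ N) (m : ℕ) (hm : (m : ℝ) * (sq N : ℝ) ≤ 1 / 4) :
    ((pw N (m + 1)).1 : ℝ) ≤ ((pw N m).1 : ℝ) := by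
  obtain ⟨h1, h2, h3⟩ := pw_bounds hN m hm
  have e1 : ((pw N (m + 1)).1 : ℝ) = (pw N m).1 * cq N - (pw N m).2 * sq N := by
    simp only [pw]; push_cast; rfl
  rw [e1]
  have hs := s_pos hN
  have a1 : ((pw N m).1 : ℝ) * cq N ≤ ((pw N m).1 : ℝ) * 1 :=
    mul_le_mul_of_nonneg_left c_le (by linarith)
  have a2 : 0 ≤ ((pw N m).2 : ℝ) * sq N := mul_nonneg h1 hs.le
  linarith

lemma pw_three_le (hN : 16 ≤ N) (m : ℕ) (hm3 : 3 ≤ m) (hm : (m : ℝ) * (sq N : ℝ) ≤ 1 / 4) :
    ((pw N m).1 : ℝ) ≤ ((pw N 3).1 : ℝ) := by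
  have hs := s_pos hN
  induction m, hm3 using Nat.le_induction with
  | base => exact le_rfl
  | succ m _ ih =>
      push_cast at hm
      have hm' : (m : ℝ) * (sq N : ℝ) ≤ 1 / 4 := by nlinarith
      exact (pw_anti hN m hm').trans (ih hm')

lemma pw_three (hN : 16 ≤ N) : 2 * ((pw N 3).1 : ℝ) + 25 / (N : ℝ) ^ 2 ≤ 2 * (cq N : ℝ) := by
  have h16 : (16 : ℝ) ≤ N := by exact_mod_cast hN
  have hc := c_ge hN
  have hs := s_mul_ge hN
  have hcs := cs_real (N := N)
  have e : ((pw N 3).1 : ℝ) = (cq N : ℝ) - 4 * (cq N : ℝ) * (sq N : ℝ) ^ 2 := by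
    simp only [pw]
    push_cast
    linear_combination (cq N : ℝ) * hcs
  have hN2 : (0 : ℝ) < (N : ℝ) ^ 2 := by positivity
  have h1 : (361 / 100 : ℝ) ≤ (sq N : ℝ) ^ 2 * (N : ℝ) ^ 2 := by
    have : (19 / 10 : ℝ) ^ 2 ≤ ((sq N : ℝ) * N) ^ 2 := pow_le_pow_left₀ (by norm_num) hs 2
    nlinarith
  have h2 : 25 / (N : ℝ) ^ 2 ≤ 8 * (cq N : ℝ) * (sq N : ℝ) ^ 2 := by
    rw [div_le_iff₀ hN2]
    nlinarith
  rw [e]
  linarith

/-- Distance of two non-neighbouring base points. -/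
lemma base_far (hN : 16 ≤ N) (k m : ℕ) (hm2 : 2 ≤ m) (hm : (m : ℝ) * (sq N : ℝ) ≤ 1 / 4) :
    ‖P N k 0 - P N (k + m) 0‖ + 25 / (N : ℝ) ^ 2 ≤ 2 * (cq N : ℝ) := by
  have h16 : (16 : ℝ) ≤ N := by exact_mod_cast hN
  have hc := c_ge hN
  obtain ⟨h1, h2, h3⟩ := pw_bounds hN m hm
  have hp := pw_real (N := N) m
  have e : P N k 0 - P N (k + m) 0 = (-1) ^ k * w N ^ (2 * k) *
      (1 - (-1) ^ m * (w N ^ m) ^ 2) := by
    unfold P
    simp only [ofReal_zero, mul_zero, zero_mul, add_zero, mul_one]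
    ring
  have hnorm : ‖P N k 0 - P N (k + m) 0‖ = ‖1 - (-1) ^ m * (w N ^ m) ^ 2‖ := by
    rw [e, norm_mul, norm_mul, norm_pow, norm_pow, norm_w, norm_neg, norm_one, one_pow,
      one_pow, one_mul, one_mul]
  rw [hnorm, w_pow]
  rcases Nat.even_or_odd m with hev | hod
  · rw [hev.neg_one_pow, one_mul, norm_one_sub_sq _ _ hp h1]
    have : 25 / (N : ℝ) ^ 2 ≤ 1 / 10 := by
      rw [div_le_iff₀ (by positivity)]
      nlinarith
    linarith
  · have hm3 : 3 ≤ m := by
      rcases hod with ⟨j, hj⟩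
      omega
    rw [hod.neg_one_pow, neg_one_mul, sub_neg_eq_add, norm_one_add_sq _ _ hp (by linarith)]
    have := pw_three_le hN m hm3 hm
    have := pw_three hN
    linarith

lemma P_shift (k : ℕ) (t : ℝ) : ‖P N k t - P N k 0‖ = |t| := by
  have e : P N k t - P N k 0 = (-1) ^ k * w N ^ (2 * k) * (I * t * w N) := by
    unfold P
    push_cast
    ring
  rw [e, norm_mul, norm_mul, norm_mul, norm_mul, norm_pow, norm_pow, norm_w, norm_neg, norm_one,
    one_pow, one_pow, one_mul, one_mul, norm_I, one_mul, mul_one, Complex.norm_real,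
    Real.norm_eq_abs]

/-- Points of non-neighbouring segments are closer than `2 c`. -/
lemma far (hN : 16 ≤ N) (k m : ℕ) (hm2 : 2 ≤ m) (hm : (m : ℝ) * (sq N : ℝ) ≤ 1 / 4) (t s : ℝ)
    (ht : |t| ≤ 2 / (N : ℝ) ^ 2) (hs : |s| ≤ 2 / (N : ℝ) ^ 2) :
    ‖P N k t - P N (k + m) s‖ ≤ 2 * (cq N : ℝ) := by
  have h16 : (16 : ℝ) ≤ N := by exact_mod_cast hN
  have h1 := base_far hN k m hm2 hm
  have h2 : ‖P N k t - P N (k + m) s‖ ≤ ‖P N k t - P N k 0‖ + ‖P N k 0 - P N (k + m) 0‖ +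
      ‖P N (k + m) s - P N (k + m) 0‖ := by
    have : P N k t - P N (k + m) s = (P N k t - P N k 0) + (P N k 0 - P N (k + m) 0) -
        (P N (k + m) s - P N (k + m) 0) := by ring
    rw [this]
    exact (norm_sub_le _ _).trans (add_le_add (norm_add_le _ _) le_rfl)
  rw [P_shift, P_shift] at h2
  have h3 : 2 / (N : ℝ) ^ 2 + 2 / (N : ℝ) ^ 2 ≤ 25 / (N : ℝ) ^ 2 := by
    rw [← add_div]
    gcongr
    norm_num
  linarith

/-- Points of neighbouring segments, lower bound on the second parameter. -/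
lemma adj_pos (hN : 16 ≤ N) (k : ℕ) (t s : ℝ) (h : ‖P N k t - P N (k + 1) s‖ ≤ 2 * (cq N : ℝ))
    (hts : t ≠ 0 ∨ ‖P N k t - P N (k + 1) s‖ < 2 * (cq N : ℝ)) : 0 < s := by
  have hc := c_ge hN
  have hs := s_pos hN
  by_contra hneg
  push Not at hneg
  have e := adj_dist N k t s
  have h1 : (2 * (cq N : ℝ)) ^ 2 ≤
      (2 * (cq N : ℝ) - 2 * (cq N : ℝ) * (sq N : ℝ) * s) ^ 2 := by
    have : 0 ≤ -(2 * (cq N : ℝ) * (sq N : ℝ) * s) := by
      have : 0 ≤ 2 * (cq N : ℝ) * (sq N : ℝ) := by positivity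
      nlinarith
    apply pow_le_pow_left₀ (by linarith)
    linarith
  have h2 : ‖P N k t - P N (k + 1) s‖ ^ 2 ≤ (2 * (cq N : ℝ)) ^ 2 :=
    pow_le_pow_left₀ (norm_nonneg _) h 2
  have h3 := sq_nonneg (t + s * ((cq N : ℝ) ^ 2 - (sq N : ℝ) ^ 2))
  rcases hts with ht | hlt
  · -- equality everywhere
    have h4 : (t + s * ((cq N : ℝ) ^ 2 - (sq N : ℝ) ^ 2)) ^ 2 = 0 := by linarith
    have h5 : (2 * (cq N : ℝ) - 2 * (cq N : ℝ) * (sq N : ℝ) * s) ^ 2 = (2 * (cq N : ℝ)) ^ 2 := by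
      linarith
    have hs0 : s = 0 := by
      by_contra hs0
      have hsneg : s < 0 := lt_of_le_of_ne hneg hs0
      have h6 : 0 < -(2 * (cq N : ℝ) * (sq N : ℝ) * s) := by
        have : 0 < 2 * (cq N : ℝ) * (sq N : ℝ) := by positivity
        nlinarith
      have h7 : (2 * (cq N : ℝ)) ^ 2 <
          (2 * (cq N : ℝ) - 2 * (cq N : ℝ) * (sq N : ℝ) * s) ^ 2 := by
        apply pow_lt_pow_left₀ (by linarith) (by linarith) two_ne_zero
      linarith
    rw [hs0] at h4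
    simp at h4
    exact ht h4
  · have h8 : ‖P N k t - P N (k + 1) s‖ ^ 2 < (2 * (cq N : ℝ)) ^ 2 :=
      pow_lt_pow_left₀ hlt (norm_nonneg _) two_ne_zero
    linarith

/-- Points of neighbouring segments, sufficient condition. -/
lemma adj_le (hN : 16 ≤ N) (k : ℕ) (t : ℝ) (ht0 : 0 ≤ t) (ht : t ≤ 1 / (N : ℝ) ^ 2) :
    ‖P N k t - P N (k + 1) ((N : ℝ) / 2 * t ^ 2)‖ ≤ 2 * (cq N : ℝ) := by
  have h16 : (16 : ℝ) ≤ N := by exact_mod_cast hN
  have hc := c_ge hN
  have hc1 := c_le (N := N)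
  have hs := s_pos hN
  have hsN := s_mul_ge hN
  have hcs := cs_real (N := N)
  have e := adj_dist N k t ((N : ℝ) / 2 * t ^ 2)
  set c : ℝ := (cq N : ℝ) with hcdef
  set si : ℝ := (sq N : ℝ) with hsdef
  set s : ℝ := (N : ℝ) / 2 * t ^ 2 with hsd
  have hs0 : 0 ≤ s := by positivity
  have hst : s ≤ t / 32 := by
    have h1 : (N : ℝ) * t ≤ 1 / N := by
      have : (N : ℝ) * t ≤ N * (1 / (N : ℝ) ^ 2) := mul_le_mul_of_nonneg_left ht (by positivity)
      have h2 : (N : ℝ) * (1 / (N : ℝ) ^ 2) = 1 / N := by field_simp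
      linarith
    have h3 : (1 : ℝ) / N ≤ 1 / 16 := by
      apply one_div_le_one_div_of_le <;> linarith
    have : s = (N * t) * t / 2 := by rw [hsd]; ring
    rw [this]
    nlinarith
  have key : ‖P N k t - P N (k + 1) s‖ ^ 2 ≤ (2 * c) ^ 2 := by
    rw [e]
    have h1 : (2 * c - 2 * c * si * s) ^ 2 + (t + s * (c ^ 2 - si ^ 2)) ^ 2 =
        (2 * c) ^ 2 - 8 * c ^ 2 * si * s + t ^ 2 + 2 * t * s * (c ^ 2 - si ^ 2) + s ^ 2 := by
      have h2 : 4 * c ^ 2 * si ^ 2 + (c ^ 2 - si ^ 2) ^ 2 = 1 := by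
        linear_combination (c ^ 2 + si ^ 2 + 1) * hcs
      linear_combination (s ^ 2) * h2
    rw [h1]
    have h3 : c ^ 2 - si ^ 2 ≤ 1 := by nlinarith [sq_nonneg si]
    have h4 : 2 * t * s * (c ^ 2 - si ^ 2) ≤ 2 * t * s * 1 :=
      mul_le_mul_of_nonneg_left h3 (by positivity)
    have h5 : t ^ 2 + 2 * t * s + s ^ 2 ≤ 2 * t ^ 2 := by nlinarith
    have h6 : 2 * t ^ 2 ≤ 8 * c ^ 2 * si * s := by
      have h7 : 8 * c ^ 2 * si * s = 4 * c ^ 2 * (si * N) * t ^ 2 := by rw [hsd]; ring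
      rw [h7]
      have h8 : (2 : ℝ) ≤ 4 * c ^ 2 * (si * N) := by
        have : (81 / 100 : ℝ) ≤ c ^ 2 := by nlinarith
        nlinarith
      exact mul_le_mul_of_nonneg_right h8 (sq_nonneg t)
    linarith
  exact le_of_sq_le_sq key (by linarith)

/-- Neighbouring segments, last pair. -/
lemma adj_last (hN : 16 ≤ N) (k : ℕ) (t η : ℝ) (hη : 0 ≤ η) (h : t ^ 2 ≤ η) :
    ‖P N k t - P N (k + 1) 0‖ ≤ 2 * (cq N : ℝ) + η := by
  have hc := c_ge hN
  have e := adj_dist N k t 0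
  simp only [mul_zero, sub_zero, zero_mul, add_zero] at e
  have key : ‖P N k t - P N (k + 1) 0‖ ^ 2 ≤ (2 * (cq N : ℝ) + η) ^ 2 := by
    rw [e]
    nlinarith
  exact le_of_sq_le_sq key (by linarith)

/-- Membership in a segment with rational parameters. -/
lemma mem_seg (k : ℕ) (a b : ℚ) (hab : a ≤ b) (z : ℂ) :
    z ∈ segment ℝ (pt (Q N k a)) (pt (Q N k b)) ↔ ∃ t : ℝ, (a : ℝ) ≤ t ∧ t ≤ b ∧ z = P N k t := by
  have hab' : (a : ℝ) ≤ b := by exact_mod_cast hab
  rw [pt_Q, pt_Q]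
  constructor
  · rintro ⟨x, y, hx, hy, hxy, rfl⟩
    refine ⟨x * a + y * b, ?_, ?_, ?_⟩
    · have : x * (a : ℝ) + y * a ≤ x * a + y * b := by
        have := mul_le_mul_of_nonneg_left hab' hy
        linarith
      have h2 : x * (a : ℝ) + y * a = a := by rw [← add_mul, hxy, one_mul]
      linarith
    · have : x * (a : ℝ) + y * b ≤ x * b + y * b := by
        have := mul_le_mul_of_nonneg_left hab' hx
        linarith
      have h2 : x * (b : ℝ) + y * b = b := by rw [← add_mul, hxy, one_mul]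
      linarith
    · have hy' : y = 1 - x := by linarith
      subst hy'
      simp only [P, real_smul]
      push_cast
      ring
  · rintro ⟨t, h1, h2, rfl⟩
    rcases hab'.eq_or_lt with he | hlt
    · have : t = a := le_antisymm (by rw [he]; exact h2) h1
      rw [this, ← he]
      simp
    · have hne : (b : ℝ) - a ≠ 0 := by linarith
      refine ⟨(b - t) / (b - a), (t - a) / (b - a), div_nonneg (by linarith) (by linarith),
        div_nonneg (by linarith) (by linarith), by field_simp; ring, ?_⟩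
      simp only [P, real_smul]
      have hne' : ((b : ℂ) - a) ≠ 0 := by exact_mod_cast hne
      push_cast
      field_simp
      ring

lemma Q_inj (k : ℕ) {a b : ℚ} (h : Q N k a = Q N k b) : a = b := by
  have h1 := congrArg Prod.fst h
  have h2 := congrArg Prod.snd h
  simp only [Q] at h1 h2
  have hne : ((-1 : ℚ)) ^ k ≠ 0 := pow_ne_zero _ (by norm_num)
  have h1' := mul_left_cancel₀ hne h1
  have h2' := mul_left_cancel₀ hne h2
  have hp := pw_sq N (2 * k + 1)
  have h3 : (a - b) * (pw N (2 * k + 1)).2 = 0 := by linear_combination -h1'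
  have h4 : (a - b) * (pw N (2 * k + 1)).1 = 0 := by linear_combination h2'
  have h5 : (a - b) = 0 := by
    by_contra hab
    have h6 := (mul_eq_zero.1 h3).resolve_left hab
    have h7 := (mul_eq_zero.1 h4).resolve_left hab
    rw [h6, h7] at hp
    norm_num at hp
  linarith

end bounds

/-! ### The instances -/

/-- parameter ranges, in units of `1 / N ^ 2` -/
def lo (n k : ℕ) (a : ℤ) : ℤ := if k = n + 1 then -1 else if k = 0 then a else 0

/-- parameter ranges, in units of `1 / N ^ 2` -/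
def hi (n k : ℕ) (a : ℤ) : ℤ := if k = n + 1 then 0 else if k = 0 then a + 1 else 1

/-- The instance with first segment starting at parameter `a / N ^ 2`. -/
def inst (n : ℕ) (a : ℤ) (i : Fin (n + 2)) : (ℚ × ℚ) × (ℚ × ℚ) :=
  (Q (8 * (n + 2)) i ((lo n i a : ℤ) / ((8 * (n + 2) : ℕ) : ℚ) ^ 2),
    Q (8 * (n + 2)) i ((hi n i a : ℤ) / ((8 * (n + 2) : ℕ) : ℚ) ^ 2))

lemma inst_height (n : ℕ) (a : ℤ) (ha : a = 0 ∨ a = 1) :
    HeightLe (inst n a) ((16 * (n + 2)) ^ (4 * (n + 3))) := by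
  have hlo : ∀ k, |lo n k a| ≤ 2 := by
    intro k
    unfold lo
    split_ifs <;> rcases ha with rfl | rfl <;> simp
  have hhi : ∀ k, |hi n k a| ≤ 2 := by
    intro k
    unfold hi
    split_ifs <;> rcases ha with rfl | rfl <;> simp
  have hB : ∀ k, k ≤ n + 1 → 2 * ((8 * (n + 2)) ^ 2 + 1) ^ (2 * k + 2) ≤
      (16 * (n + 2)) ^ (4 * (n + 3)) := by
    intro k hk
    have h1 : (8 * (n + 2)) ^ 2 + 1 ≤ 128 * (n + 2) ^ 2 := by nlinarith [sq_nonneg (n + 2)]
    calc 2 * ((8 * (n + 2)) ^ 2 + 1) ^ (2 * k + 2)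
        ≤ 2 ^ (2 * k + 2) * ((8 * (n + 2)) ^ 2 + 1) ^ (2 * k + 2) := by
          gcongr
          calc 2 = 2 ^ 1 := by norm_num
            _ ≤ 2 ^ (2 * k + 2) := Nat.pow_le_pow_right (by norm_num) (by omega)
      _ = (2 * ((8 * (n + 2)) ^ 2 + 1)) ^ (2 * k + 2) := (mul_pow _ _ _).symm
      _ ≤ ((16 * (n + 2)) ^ 2) ^ (2 * k + 2) := by
          gcongr
          nlinarith
      _ = (16 * (n + 2)) ^ (2 * (2 * k + 2)) := by rw [← pow_mul]
      _ ≤ (16 * (n + 2)) ^ (4 * (n + 3)) := by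
          apply Nat.pow_le_pow_right (by omega)
          omega
  intro i
  have hi1 : (i : ℕ) ≤ n + 1 := by omega
  have q1 := Q_height (8 * (n + 2)) (by omega) i (lo n i a) (hlo i)
  have q2 := Q_height (8 * (n + 2)) (by omega) i (hi n i a) (hhi i)
  exact ⟨q1.1.trans (hB i hi1), q1.2.trans (hB i hi1), q2.1.trans (hB i hi1),
    q2.2.trans (hB i hi1)⟩

lemma lo_le_hi (n k : ℕ) (a : ℤ) : lo n k a < hi n k a := by
  unfold lo hi
  split_ifs <;> omega

lemma inst_nondeg (n : ℕ) (a : ℤ) (i : Fin (n + 2)) : (inst n a i).1 ≠ (inst n a i).2 := by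
  intro h
  have h1 := Q_inj _ h
  have hN : (((8 * (n + 2) : ℕ) : ℚ) ^ 2) ≠ 0 := by positivity
  have h2 : ((lo n i a : ℤ) : ℚ) = hi n i a := by
    field_simp at h1
    exact_mod_cast h1
  have h3 : lo n i a = hi n i a := by exact_mod_cast h2
  have := lo_le_hi n i a
  omega

lemma inst_mem (n : ℕ) (a : ℤ) (i : Fin (n + 2)) (z : ℂ) :
    z ∈ segment ℝ (pt (inst n a i).1) (pt (inst n a i).2) ↔
      ∃ t : ℝ, (lo n i a : ℝ) / ((8 * (n + 2) : ℕ) : ℝ) ^ 2 ≤ t ∧
        t ≤ (hi n i a : ℝ) / ((8 * (n + 2) : ℕ) : ℝ) ^ 2 ∧ z = P (8 * (n + 2)) i t := by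
  unfold inst
  simp only
  rw [mem_seg]
  · push_cast
    rfl
  · have h := (lo_le_hi n i a).le
    have h' : ((lo n i a : ℤ) : ℚ) ≤ hi n i a := by exact_mod_cast h
    gcongr

lemma small (n m : ℕ) (hm : m ≤ n + 1) :
    (m : ℝ) * (sq (8 * (n + 2)) : ℝ) ≤ 1 / 4 := by
  have h1 := s_mul_le (N := 8 * (n + 2))
  have h2 : (0 : ℝ) < sq (8 * (n + 2)) := s_pos (by omega)
  have h3 : (m : ℝ) ≤ (n : ℝ) + 1 := by exact_mod_cast hm
  push_cast at h1
  nlinarith

/-- A symmetric criterion for bounding all pairwise distances of a selection. -/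
lemma all_dist (n : ℕ) (t : ℕ → ℝ) (ρ : ℝ) (hρ : 2 * (cq (8 * (n + 2)) : ℝ) ≤ ρ)
    (ht : ∀ k, |t k| ≤ 2 / ((8 * (n + 2) : ℕ) : ℝ) ^ 2)
    (hadj : ∀ k, k ≤ n → ‖P (8 * (n + 2)) k (t k) - P (8 * (n + 2)) (k + 1) (t (k + 1))‖ ≤ ρ)
    (i j : Fin (n + 2)) :
    dist (P (8 * (n + 2)) i (t i)) (P (8 * (n + 2)) j (t j)) ≤ ρ := by
  have hN : 16 ≤ 8 * (n + 2) := by omega
  have hc := c_ge hN
  have main : ∀ k l : ℕ, k ≤ l → l ≤ n + 1 →
      dist (P (8 * (n + 2)) k (t k)) (P (8 * (n + 2)) l (t l)) ≤ ρ := by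
    intro k l hkl hl
    obtain ⟨m, rfl⟩ := Nat.exists_eq_add_of_le hkl
    rw [dist_eq_norm]
    rcases Nat.lt_or_ge m 2 with hm | hm
    · interval_cases m
      · simp only [add_zero, sub_self, norm_zero]
        linarith
      · exact hadj k (by omega)
    · exact (far hN k m hm (small n m (by omega)) _ _ (ht _) (ht _)).trans hρ
  rcases le_total (i : ℕ) (j : ℕ) with h | h
  · exact main i j h (by omega)
  · rw [dist_comm]
    exact main j i h (by omega)

/-- For every `n` there are two families `L`, `L'` of `n + 2` segments with rational endpoints,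
all of height at most `(16 (n + 2)) ^ (4 (n + 3))`, which differ in one segment only, and a
rational `r` such that `Opt(L') = r < Opt(L) ≤ r + 2 ^ (-2 ^ n)`. -/
theorem result (n : ℕ) :
    ∃ (r : ℚ) (L L' : Fin (n + 2) → (ℚ × ℚ) × (ℚ × ℚ)),
      height r ≤ (16 * (n + 2)) ^ (4 * (n + 3)) ∧
      HeightLe L ((16 * (n + 2)) ^ (4 * (n + 3))) ∧
      HeightLe L' ((16 * (n + 2)) ^ (4 * (n + 3))) ∧
      (∀ i, (L i).1 ≠ (L i).2 ∧ (L' i).1 ≠ (L' i).2) ∧
      (∀ i, i ≠ 0 → L i = L' i) ∧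
      Feasible L' r ∧ (∀ ρ : ℝ, ρ < r → ¬ Feasible L' ρ) ∧
      ¬ Feasible L r ∧ Feasible L (r + 1 / 2 ^ (2 ^ n)) := by
  have hN : 16 ≤ 8 * (n + 2) := by omega
  have hc := c_ge hN
  have hNr : (16 : ℝ) ≤ ((8 * (n + 2) : ℕ) : ℝ) := by exact_mod_cast hN
  have hN2 : (0 : ℝ) < ((8 * (n + 2) : ℕ) : ℝ) ^ 2 := by positivity
  have hr : ((2 * cq (8 * (n + 2)) : ℚ) : ℝ) = 2 * (cq (8 * (n + 2)) : ℝ) := by push_cast; rfl
  refine ⟨2 * cq (8 * (n + 2)), inst n 1, inst n 0, ?_, inst_height n 1 (Or.inr rfl),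
    inst_height n 0 (Or.inl rfl), fun i => ⟨inst_nondeg n 1 i, inst_nondeg n 0 i⟩, ?_, ?_, ?_, ?_,
    ?_⟩
  · -- height of r
    have h1 : height (2 * cq (8 * (n + 2))) ≤ 2 * ((8 * (n + 2)) ^ 2 + 1) := by
      apply height_le_of (by positivity)
      · refine ⟨2 * ((8 * (n + 2) : ℤ) ^ 2 - 1), ?_⟩
        unfold cq
        push_cast
        have : ((8 * ((n : ℚ) + 2)) ^ 2 + 1) ≠ 0 := by positivity
        field_simp
      · have h1 : (cq (8 * (n + 2)) : ℝ) ≤ 1 := c_le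
        have h1' : cq (8 * (n + 2)) ≤ 1 := by exact_mod_cast h1
        have h2' : 0 ≤ cq (8 * (n + 2)) := by
          have : (0 : ℝ) ≤ (cq (8 * (n + 2)) : ℝ) := by linarith
          exact_mod_cast this
        rw [abs_le]
        constructor <;> linarith
    refine h1.trans ?_
    calc 2 * ((8 * (n + 2)) ^ 2 + 1) ≤ (16 * (n + 2)) ^ 2 := by nlinarith
      _ ≤ (16 * (n + 2)) ^ (4 * (n + 3)) := Nat.pow_le_pow_right (by omega) (by omega)
  · -- the instances differ in the first segment only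
    intro i hi0
    have hi0' : (i : ℕ) ≠ 0 := by
      intro h
      exact hi0 (Fin.ext h)
    have h1 : lo n i 1 = lo n i 0 := by
      unfold lo
      simp [hi0']
    have h2 : hi n i 1 = hi n i 0 := by
      unfold hi
      simp [hi0']
    unfold inst
    rw [h1, h2]
  · -- L' is feasible at r
    refine ⟨fun i => P (8 * (n + 2)) i 0, ?_, ?_⟩
    · intro i
      rw [inst_mem]
      refine ⟨0, ?_, ?_, rfl⟩
      · apply div_nonpos_of_nonpos_of_nonneg _ hN2.le
        have : lo n i 0 ≤ 0 := by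
          unfold lo
          split_ifs <;> omega
        exact_mod_cast this
      · apply div_nonneg _ hN2.le
        have : 0 ≤ hi n i 0 := by
          unfold hi
          split_ifs <;> omega
        exact_mod_cast this
    · intro i j
      rw [hr]
      refine all_dist n (fun _ => 0) _ le_rfl ?_ ?_ i j
      · intro k
        rw [abs_zero]
        positivity
      · intro k _
        have := adj_le hN k 0 le_rfl (by positivity)
        simpa using this
  · -- L' is not feasible below r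
    rintro ρ hρ ⟨p, hp, hd⟩
    rw [hr] at hρ
    have hpt : ∀ i : Fin (n + 2), ∃ t : ℝ, (lo n i 0 : ℝ) / ((8 * (n + 2) : ℕ) : ℝ) ^ 2 ≤ t ∧
        t ≤ (hi n i 0 : ℝ) / ((8 * (n + 2) : ℕ) : ℝ) ^ 2 ∧ p i = P (8 * (n + 2)) i t :=
      fun i => (inst_mem n 0 i _).1 (hp i)
    choose t ht1 ht2 ht3 using hpt
    have hlast : 0 < t (Fin.last (n + 1)) := by
      have h1 := hd (Fin.castSucc (Fin.last n)) (Fin.last (n + 1))
      rw [dist_eq_norm, ht3, ht3] at h1
      have h2 : ‖P (8 * (n + 2)) n (t (Fin.castSucc (Fin.last n))) -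
          P (8 * (n + 2)) (n + 1) (t (Fin.last (n + 1)))‖ < 2 * (cq (8 * (n + 2)) : ℝ) :=
        lt_of_le_of_lt h1 hρ
      exact adj_pos hN n _ _ h2.le (Or.inr h2)
    have h3 := ht2 (Fin.last (n + 1))
    have h4 : hi n (Fin.last (n + 1)) 0 = 0 := by
      unfold hi
      simp
    rw [h4] at h3
    simp at h3
    linarith
  · -- L is not feasible at r
    rintro ⟨p, hp, hd⟩
    rw [hr] at hd
    have hpt : ∀ i : Fin (n + 2), ∃ t : ℝ, (lo n i 1 : ℝ) / ((8 * (n + 2) : ℕ) : ℝ) ^ 2 ≤ t ∧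
        t ≤ (hi n i 1 : ℝ) / ((8 * (n + 2) : ℕ) : ℝ) ^ 2 ∧ p i = P (8 * (n + 2)) i t :=
      fun i => (inst_mem n 1 i _).1 (hp i)
    choose t ht1 ht2 ht3 using hpt
    have hpos : ∀ k : ℕ, ∀ hk : k < n + 2, 0 < t ⟨k, hk⟩ := by
      intro k
      induction k with
      | zero =>
          intro hk
          have h1 := ht1 ⟨0, hk⟩
          have h2 : lo n (⟨0, hk⟩ : Fin (n + 2)) 1 = 1 := by
            unfold lo
            simp
          rw [h2] at h1
          have h3 : (0 : ℝ) < ((1 : ℤ) : ℝ) / ((8 * (n + 2) : ℕ) : ℝ) ^ 2 := by positivity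
          linarith
      | succ k ih =>
          intro hk
          have h0 := ih (by omega)
          have h1 := hd ⟨k, by omega⟩ ⟨k + 1, hk⟩
          rw [dist_eq_norm, ht3, ht3] at h1
          exact adj_pos hN k _ _ h1 (Or.inl h0.ne')
    have hlast := hpos (n + 1) (by omega)
    have h3 := ht2 ⟨n + 1, by omega⟩
    have h4 : hi n (⟨n + 1, by omega⟩ : Fin (n + 2)) 1 = 0 := by
      unfold hi
      simp
    rw [h4] at h3
    simp at h3
    linarith
  · -- L is feasible slightly above r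
    set M : ℝ := ((8 * (n + 2) : ℕ) : ℝ) with hM
    have hMpos : 0 < M := by linarith
    let u : ℕ → ℝ := fun k => (1 / (2 * M)) ^ (2 ^ k) * (2 / M)
    have hu0 : u 0 = 1 / M ^ 2 := by
      simp only [u]
      rw [pow_zero, pow_one]
      field_simp
    have hus : ∀ k, u (k + 1) = M / 2 * u k ^ 2 := by
      intro k
      simp only [u]
      rw [pow_succ 2 k, pow_mul]
      field_simp
    have hupos : ∀ k, 0 < u k := by
      intro k
      simp only [u]
      positivity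
    have hbase : 1 / (2 * M) ≤ 1 / 2 := by
      apply one_div_le_one_div_of_le <;> linarith
    have hule : ∀ k, u k ≤ 1 / M ^ 2 := by
      intro k
      rw [← hu0]
      simp only [u]
      apply mul_le_mul_of_nonneg_right _ (by positivity)
      apply pow_le_pow_of_le_one (by positivity) (by linarith)
      exact Nat.pow_le_pow_right (by norm_num) (Nat.zero_le k)
    have hun : u n ≤ 1 / 2 ^ (2 ^ n) := by
      have h1 : (1 / (2 * M)) ^ (2 ^ n) ≤ (1 / 2) ^ (2 ^ n) :=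
        pow_le_pow_left₀ (by positivity) hbase _
      have h2 : 2 / M ≤ 1 := by
        rw [div_le_one hMpos]
        linarith
      have h3 : u n ≤ (1 / 2) ^ (2 ^ n) * 1 :=
        mul_le_mul h1 h2 (by positivity) (by positivity)
      rw [mul_one, one_div_pow] at h3
      exact h3
    let t : ℕ → ℝ := fun k => if k = n + 1 then 0 else u k
    have ht0 : ∀ k, 0 ≤ t k := by
      intro k
      simp only [t]
      split_ifs
      · exact le_rfl
      · exact (hupos k).le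
    have htle : ∀ k, t k ≤ 1 / M ^ 2 := by
      intro k
      simp only [t]
      split_ifs
      · positivity
      · exact hule k
    refine ⟨fun i => P (8 * (n + 2)) i (t i), ?_, ?_⟩
    · intro i
      rw [inst_mem]
      refine ⟨t i, ?_, ?_, rfl⟩
      · rw [← hM]
        by_cases h1 : (i : ℕ) = n + 1
        · have : lo n i 1 = -1 := by
            unfold lo
            simp [h1]
          rw [this]
          have h2 := ht0 i
          have h3 : (((-1 : ℤ)) : ℝ) / M ^ 2 ≤ 0 := by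
            apply div_nonpos_of_nonpos_of_nonneg _ hN2.le
            norm_num
          linarith
        · by_cases h2 : (i : ℕ) = 0
          · have h3 : lo n i 1 = 1 := by
              unfold lo
              simp [h2]
            have h4 : t i = 1 / M ^ 2 := by
              simp only [t]
              rw [if_neg h1, h2, hu0]
            rw [h3, h4]
            norm_num
          · have h3 : lo n i 1 = 0 := by
              unfold lo
              simp [h1, h2]
            rw [h3]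
            simpa using ht0 i
      · rw [← hM]
        by_cases h1 : (i : ℕ) = n + 1
        · have h3 : hi n i 1 = 0 := by
            unfold hi
            simp [h1]
          have h4 : t i = 0 := by
            simp only [t]
            rw [if_pos h1]
          rw [h3, h4]
          simp
        · have h3 : 1 ≤ hi n i 1 := by
            unfold hi
            rw [if_neg h1]
            split_ifs <;> norm_num
          have h4 : (1 : ℝ) ≤ (hi n i 1 : ℝ) := by exact_mod_cast h3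
          calc t i ≤ 1 / M ^ 2 := htle i
            _ ≤ (hi n i 1 : ℝ) / M ^ 2 := by gcongr
    · intro i j
      rw [hr]
      have heps : (0 : ℝ) < 1 / 2 ^ (2 ^ n) := by positivity
      refine all_dist n t _ (by linarith) ?_ ?_ i j
      · intro k
        rw [abs_of_nonneg (ht0 k), ← hM]
        refine (htle k).trans ?_
        gcongr
        norm_num
      · intro k hk
        rcases hk.lt_or_eq with hlt | heq
        · have h1 : t k = u k := by
            simp only [t]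
            rw [if_neg (by omega)]
          have h2 : t (k + 1) = M / 2 * u k ^ 2 := by
            simp only [t]
            rw [if_neg (by omega), hus]
          rw [h1, h2]
          refine (adj_le hN k (u k) (hupos k).le (by rw [← hM]; exact hule k)).trans ?_
          linarith
        · subst heq
          have h1 : t k = u k := by
            simp only [t]
            rw [if_neg (by omega)]
          have h2 : t (k + 1) = 0 := by
            simp [t]
          rw [h1, h2]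
          apply adj_last hN k (u k) _ heps.le
          have h3 : u k ≤ 1 := by
            refine (hule k).trans ?_
            rw [div_le_one (by positivity)]
            nlinarith
          have h4 := hupos k
          nlinarith

end Pool.Agent.Results.MP_705ba2_lc.DoublyExpGap
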