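import Mathlib

set_option autoImplicit false

namespace Pool.Agent.Results.MP_705ba2_lc.ParallelExact

open Complex

/-- The rational point `(a.1, a.2)` of the Euclidean plane, the plane being `ℂ`. -/
def pt (a : ℚ × ℚ) : ℂ := ⟨(a.1 : ℝ), (a.2 : ℝ)⟩

/-- `Feasible L ρ` says that `Opt(L) ≤ ρ`: one point can be chosen on each of the segments
`[(L i).1, (L i).2]` so that all pairwise distances are at most `ρ`. -/
def Feasible {n : ℕ} (L : Fin n → (ℚ × ℚ) × (ℚ × ℚ)) (ρ : ℝ) : Prop :=
  ∃ p : Fin n → ℂ, (∀ i, p i ∈ segment ℝ (pt (L i).1) (pt (L i).2)) ∧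
    ∀ i j, dist (p i) (p j) ≤ ρ

/-- coordinate of `a` along `v` (times the length of `v`) -/
def along (v a : ℚ × ℚ) : ℚ := v.1 * a.1 + v.2 * a.2

/-- coordinate of `a` across `v` (times the length of `v`) -/
def across (v a : ℚ × ℚ) : ℚ := v.1 * a.2 - v.2 * a.1

/-- The segment `s` is parallel to the vector `v` (or a point). -/
def Parallel (v : ℚ × ℚ) (s : (ℚ × ℚ) × (ℚ × ℚ)) : Prop := across v s.1 = across v s.2

/-- smallest coordinate along `v` of the points of `s` -/
def lo (v : ℚ × ℚ) (s : (ℚ × ℚ) × (ℚ × ℚ)) : ℚ := min (along v s.1) (along v s.2)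

/-- largest coordinate along `v` of the points of `s` -/
def hi (v : ℚ × ℚ) (s : (ℚ × ℚ) × (ℚ × ℚ)) : ℚ := max (along v s.1) (along v s.2)

/-- `|v|^2 r^2` minus the squared difference of the coordinates of `s` and `t` across `v` -/
def room (v : ℚ × ℚ) (r : ℚ) (s t : (ℚ × ℚ) × (ℚ × ℚ)) : ℚ :=
  (v.1 ^ 2 + v.2 ^ 2) * r ^ 2 - (across v s.1 - across v t.1) ^ 2

/-- test for the pair `s`, `t` -/
def PairTest (v : ℚ × ℚ) (r : ℚ) (s t : (ℚ × ℚ) × (ℚ × ℚ)) : Prop :=
  0 ≤ room v r s t ∧ (lo v s - hi v t ≤ 0 ∨ (lo v s - hi v t) ^ 2 ≤ room v r s t)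

/-- test for the triple `s`, `m`, `t` -/
def TripleTest (v : ℚ × ℚ) (r : ℚ) (s m t : (ℚ × ℚ) × (ℚ × ℚ)) : Prop :=
  lo v s - hi v t ≤ 0 ∨ (lo v s - hi v t) ^ 2 ≤ room v r s m + room v r m t ∨
    ((lo v s - hi v t) ^ 2 - room v r s m - room v r m t) ^ 2 ≤
      4 * room v r s m * room v r m t

instance (v : ℚ × ℚ) (r : ℚ) (s t : (ℚ × ℚ) × (ℚ × ℚ)) : Decidable (PairTest v r s t) := by
  unfold PairTest; infer_instance

instance (v : ℚ × ℚ) (r : ℚ) (s m t : (ℚ × ℚ) × (ℚ × ℚ)) : Decidable (TripleTest v r s m t) := by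
  unfold TripleTest; infer_instance

/-! ### Square roots -/

lemma sqrt_add_le (B C : ℝ) (hB : 0 ≤ B) (hC : 0 ≤ C) : √(B + C) ≤ √B + √C := by
  rw [Real.sqrt_le_left (by positivity)]
  nlinarith [Real.sq_sqrt hB, Real.sq_sqrt hC, Real.sqrt_nonneg B, Real.sqrt_nonneg C,
    mul_nonneg (Real.sqrt_nonneg B) (Real.sqrt_nonneg C)]

lemma alt_signs (ρ p s z : ℝ) (hp : 0 ≤ p) (hs : 0 ≤ s) (hpρ : p ≤ ρ) (hsρ : s ≤ ρ)
    (hz : p + s - ρ ≤ z) : p ^ 2 + s ^ 2 ≤ ρ ^ 2 + z ^ 2 := by
  rcases le_total (p + s) ρ with h | h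
  · have h1 : (p + s) ^ 2 ≤ ρ ^ 2 := pow_le_pow_left₀ (by linarith) h 2
    nlinarith [mul_nonneg hp hs, sq_nonneg z]
  · have h1 : (p + s - ρ) ^ 2 ≤ z ^ 2 := pow_le_pow_left₀ (by linarith) hz 2
    nlinarith [mul_nonneg (sub_nonneg.2 hpρ) (sub_nonneg.2 hsρ)]

/-- The four point inequality for the half widths. -/
lemma four_point (R a b c d : ℝ) (hR : 0 ≤ R) (hab : (a - b) ^ 2 ≤ R) (hbc : (b - c) ^ 2 ≤ R)
    (hcd : (c - d) ^ 2 ≤ R) (hac : (a - c) ^ 2 ≤ R) (hbd : (b - d) ^ 2 ≤ R) :
    √(R - (a - d) ^ 2) ≤ √(R - (a - b) ^ 2) + √(R - (b - c) ^ 2) + √(R - (c - d) ^ 2) := by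
  have h1 : 0 ≤ R - (a - b) ^ 2 := by linarith
  have h2 : 0 ≤ R - (b - c) ^ 2 := by linarith
  have h3 : 0 ≤ R - (c - d) ^ 2 := by linarith
  have n1 := Real.sqrt_nonneg (R - (a - b) ^ 2)
  have n2 := Real.sqrt_nonneg (R - (b - c) ^ 2)
  have n3 := Real.sqrt_nonneg (R - (c - d) ^ 2)
  -- reduction to an inequality without roots
  have fin12 : R - (a - d) ^ 2 ≤ (R - (a - b) ^ 2) + (R - (b - c) ^ 2) →
      √(R - (a - d) ^ 2) ≤ √(R - (a - b) ^ 2) + √(R - (b - c) ^ 2) + √(R - (c - d) ^ 2) := by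
    intro h
    have := (Real.sqrt_le_sqrt h).trans (sqrt_add_le _ _ h1 h2)
    linarith
  have fin23 : R - (a - d) ^ 2 ≤ (R - (b - c) ^ 2) + (R - (c - d) ^ 2) →
      √(R - (a - d) ^ 2) ≤ √(R - (a - b) ^ 2) + √(R - (b - c) ^ 2) + √(R - (c - d) ^ 2) := by
    intro h
    have := (Real.sqrt_le_sqrt h).trans (sqrt_add_le _ _ h2 h3)
    linarith
  have fin13 : R - (a - d) ^ 2 ≤ (R - (a - b) ^ 2) + (R - (c - d) ^ 2) →
      √(R - (a - d) ^ 2) ≤ √(R - (a - b) ^ 2) + √(R - (b - c) ^ 2) + √(R - (c - d) ^ 2) := by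
    intro h
    have := (Real.sqrt_le_sqrt h).trans (sqrt_add_le _ _ h1 h3)
    linarith
  by_cases s12 : 0 ≤ (a - b) * (b - c)
  · apply fin12
    nlinarith [sq_nonneg (a - d)]
  · by_cases s23 : 0 ≤ (b - c) * (c - d)
    · apply fin23
      nlinarith [sq_nonneg (a - d)]
    · apply fin13
      push Not at s12 s23
      -- alternating signs
      set ρ := √R with hρ
      have hρ0 : 0 ≤ ρ := Real.sqrt_nonneg R
      have hρ2 : ρ ^ 2 = R := Real.sq_sqrt hR
      have habs : ∀ x : ℝ, x ^ 2 ≤ R → |x| ≤ ρ := fun x hx => by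
        rw [← hρ2] at hx
        exact abs_le_of_sq_le_sq hx hρ0
      have A1 := abs_le.1 (habs _ hab)
      have A2 := abs_le.1 (habs _ hbc)
      have A3 := abs_le.1 (habs _ hcd)
      rcases lt_or_ge 0 (a - b) with hp | hp
      · have hq : b - c < 0 := by
          by_contra hq
          push Not at hq
          exact absurd (mul_nonneg hp.le hq) (not_le.2 s12)
        have hs : 0 < c - d := by
          by_contra hs
          push Not at hs
          exact absurd (mul_nonneg_of_nonpos_of_nonpos hq.le hs) (not_le.2 s23)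
        have := alt_signs ρ (a - b) (c - d) (a - d) hp.le hs.le A1.2 A3.2 (by linarith [A2.1])
        rw [hρ2] at this
        linarith
      · have hp' : a - b < 0 := by
          rcases hp.lt_or_eq with h | h
          · exact h
          · rw [h] at s12
            simp at s12
        have hq : 0 < b - c := by
          by_contra hq
          push Not at hq
          exact absurd (mul_nonneg_of_nonpos_of_nonpos hp'.le hq) (not_le.2 s12)
        have hs : c - d < 0 := by
          by_contra hs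
          push Not at hs
          exact absurd (mul_nonneg hq.le hs) (not_le.2 s23)
        have := alt_signs ρ (-(a - b)) (-(c - d)) (-(a - d)) (by linarith) (by linarith)
          (by linarith [A1.1]) (by linarith [A3.1]) (by linarith [A2.2])
        rw [hρ2, neg_sq, neg_sq, neg_sq] at this
        linarith

/-- Difference constraints closed under paths of length three. -/
lemma difference_system {n : ℕ} (l u : Fin n → ℝ) (w : Fin n → Fin n → ℝ)
    (hlu : ∀ i, l i ≤ u i)
    (h4 : ∀ i j k m, w i m ≤ w i j + w j k + w k m)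
    (h1 : ∀ i j, l i - w i j ≤ u j) (h2 : ∀ i k j, l i - w i k - w k j ≤ u j) :
    ∃ x : Fin n → ℝ, (∀ i, l i ≤ x i ∧ x i ≤ u i) ∧ ∀ i j, x i - x j ≤ w i j := by
  classical
  let S : Fin n → Finset ℝ := fun i => insert (l i)
    ((Finset.univ.image fun j => l j - w j i) ∪
      (Finset.univ.image fun q : Fin n × Fin n => l q.1 - w q.1 q.2 - w q.2 i))
  have hne : ∀ i, (S i).Nonempty := fun i => ⟨l i, Finset.mem_insert_self _ _⟩
  let x : Fin n → ℝ := fun i => (S i).max' (hne i)
  have m1 : ∀ i, l i ≤ x i := fun i => Finset.le_max' _ _ (Finset.mem_insert_self _ _)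
  have m2 : ∀ j i, l j - w j i ≤ x i := fun j i => by
    apply Finset.le_max'
    apply Finset.mem_insert_of_mem
    apply Finset.mem_union_left
    exact Finset.mem_image.2 ⟨j, Finset.mem_univ _, rfl⟩
  have m3 : ∀ j k i, l j - w j k - w k i ≤ x i := fun j k i => by
    apply Finset.le_max'
    apply Finset.mem_insert_of_mem
    apply Finset.mem_union_right
    exact Finset.mem_image.2 ⟨(j, k), Finset.mem_univ _, rfl⟩
  have hle : ∀ i (y : ℝ), l i ≤ y → (∀ j, l j - w j i ≤ y) → (∀ j k, l j - w j k - w k i ≤ y) →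
      x i ≤ y := by
    intro i y hy1 hy2 hy3
    apply Finset.max'_le
    intro z hz
    simp only [S, Finset.mem_insert, Finset.mem_union, Finset.mem_image, Finset.mem_univ,
      true_and] at hz
    rcases hz with rfl | ⟨j, rfl⟩ | ⟨q, rfl⟩
    · exact hy1
    · exact hy2 j
    · exact hy3 q.1 q.2
  refine ⟨x, fun i => ⟨m1 i, hle i _ (hlu i) (fun j => h1 j i) (fun j k => h2 j k i)⟩, ?_⟩
  intro i j
  have : x i ≤ x j + w i j := by
    apply hle
    · have := m2 i j
      linarith
    · intro k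
      have := m3 k i j
      linarith
    · intro k m
      have := h4 k m i j
      have := m2 k j
      linarith
  linarith

lemma le_sqrt_iff_test (a B : ℝ) (hB : 0 ≤ B) : a ≤ √B ↔ a ≤ 0 ∨ a ^ 2 ≤ B := by
  constructor
  · intro h
    rcases le_total a 0 with h0 | h0
    · exact Or.inl h0
    · right
      have := pow_le_pow_left₀ h0 h 2
      rwa [Real.sq_sqrt hB] at this
  · rintro (h | h)
    · exact h.trans (Real.sqrt_nonneg _)
    · exact Real.le_sqrt_of_sq_le h

lemma le_sqrt_add_iff_test (a B C : ℝ) (hB : 0 ≤ B) (hC : 0 ≤ C) :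
    a ≤ √B + √C ↔ a ≤ 0 ∨ a ^ 2 ≤ B + C ∨ (a ^ 2 - B - C) ^ 2 ≤ 4 * B * C := by
  have nB := Real.sqrt_nonneg B
  have nC := Real.sqrt_nonneg C
  have sB := Real.sq_sqrt hB
  have sC := Real.sq_sqrt hC
  have hsum : (√B + √C) ^ 2 = B + C + 2 * (√B * √C) := by
    rw [add_sq, sB, sC]; ring
  have hprod : (2 * (√B * √C)) ^ 2 = 4 * B * C := by
    rw [mul_pow, mul_pow, sB, sC]; ring
  constructor
  · intro h
    rcases le_total a 0 with h0 | h0
    · exact Or.inl h0
    · right
      rcases le_total (a ^ 2) (B + C) with h1 | h1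
      · exact Or.inl h1
      · right
        have h2 := pow_le_pow_left₀ h0 h 2
        rw [hsum] at h2
        rw [← hprod]
        apply pow_le_pow_left₀ (by linarith)
        linarith
  · rintro (h | h | h)
    · linarith
    · apply le_of_sq_le_sq _ (by linarith)
      rw [hsum]
      have := mul_nonneg nB nC
      linarith
    · apply le_of_sq_le_sq _ (by linarith)
      rw [hsum]
      rw [← hprod] at h
      have h2 := abs_le_of_sq_le_sq h (by positivity)
      have := (abs_le.1 h2).2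
      linarith

/-! ### Coordinates -/

/-- real coordinate along `v` -/
noncomputable def X (v : ℚ × ℚ) (z : ℂ) : ℝ := v.1 * z.re + v.2 * z.im

/-- real coordinate across `v` -/
noncomputable def Y (v : ℚ × ℚ) (z : ℂ) : ℝ := v.1 * z.im - v.2 * z.re

lemma X_pt (v a : ℚ × ℚ) : X v (pt a) = along v a := by
  unfold X pt along
  push_cast
  rfl

lemma Y_pt (v a : ℚ × ℚ) : Y v (pt a) = across v a := by
  unfold Y pt across
  push_cast
  rfl

lemma dist_sq (v : ℚ × ℚ) (z z' : ℂ) :
    ((v.1 : ℝ) ^ 2 + (v.2 : ℝ) ^ 2) * dist z z' ^ 2 = (X v z - X v z') ^ 2 + (Y v z - Y v z') ^ 2 := by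
  rw [dist_eq_norm, Complex.sq_norm, Complex.normSq_apply]
  simp only [sub_re, sub_im, X, Y]
  ring

lemma X_comb (v : ℚ × ℚ) (a b : ℝ) (z z' : ℂ) : X v (a • z + b • z') = a * X v z + b * X v z' := by
  simp [X]
  ring

lemma Y_comb (v : ℚ × ℚ) (a b : ℝ) (z z' : ℂ) : Y v (a • z + b • z') = a * Y v z + b * Y v z' := by
  simp [Y]
  ring

/-- For a family of parallel segments with rational endpoints and a rational `r ≥ 0`, the
condition `Opt(L) ≤ r` holds exactly if all the pair tests and triple tests succeed. -/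
theorem result {n : ℕ} (v : ℚ × ℚ) (hv : v ≠ 0) (L : Fin n → (ℚ × ℚ) × (ℚ × ℚ))
    (hL : ∀ i, Parallel v (L i)) (r : ℚ) (hr : 0 ≤ r) :
    Feasible L r ↔
      (∀ i j, PairTest v r (L i) (L j)) ∧ ∀ i k j, TripleTest v r (L i) (L k) (L j) := by
  have hq : (0 : ℝ) < (v.1 : ℝ) ^ 2 + (v.2 : ℝ) ^ 2 := by
    by_contra h
    push Not at h
    have h1 : (v.1 : ℝ) ^ 2 = 0 := by nlinarith [sq_nonneg (v.1 : ℝ), sq_nonneg (v.2 : ℝ)]
    have h2 : (v.2 : ℝ) ^ 2 = 0 := by nlinarith [sq_nonneg (v.1 : ℝ), sq_nonneg (v.2 : ℝ)]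
    apply hv
    have h1' : v.1 = 0 := by
      have := pow_eq_zero_iff (two_ne_zero) |>.1 h1
      exact_mod_cast this
    have h2' : v.2 = 0 := by
      have := pow_eq_zero_iff (two_ne_zero) |>.1 h2
      exact_mod_cast this
    exact Prod.ext h1' h2'
  have hr' : (0 : ℝ) ≤ r := by exact_mod_cast hr
  -- real versions of the data
  set R : ℝ := ((v.1 : ℝ) ^ 2 + (v.2 : ℝ) ^ 2) * (r : ℝ) ^ 2 with hR
  have hR0 : 0 ≤ R := by positivity
  let y : Fin n → ℝ := fun i => (across v (L i).1 : ℝ)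
  let l : Fin n → ℝ := fun i => (lo v (L i) : ℝ)
  let u : Fin n → ℝ := fun i => (hi v (L i) : ℝ)
  have hroom : ∀ i j, ((room v r (L i) (L j) : ℚ) : ℝ) = R - (y i - y j) ^ 2 := by
    intro i j
    simp only [room, y, hR]
    push_cast
    ring
  have hl : ∀ i, l i = min (X v (pt (L i).1)) (X v (pt (L i).2)) := by
    intro i
    simp only [l, lo, X_pt]
    push_cast
    rfl
  have hu : ∀ i, u i = max (X v (pt (L i).1)) (X v (pt (L i).2)) := by
    intro i
    simp only [u, hi, X_pt]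
    push_cast
    rfl
  have hlu : ∀ i, l i ≤ u i := fun i => by
    rw [hl, hu]
    exact min_le_max
  have hy2 : ∀ i, Y v (pt (L i).2) = y i := by
    intro i
    rw [Y_pt]
    simp only [y]
    have := hL i
    unfold Parallel at this
    rw [this]
  have hy1 : ∀ i, Y v (pt (L i).1) = y i := fun i => Y_pt _ _
  -- tests in real terms
  have hpair : ∀ i j, PairTest v r (L i) (L j) ↔
      (y i - y j) ^ 2 ≤ R ∧ l i - u j ≤ √(R - (y i - y j) ^ 2) := by
    intro i j
    unfold PairTest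
    have e1 : (0 : ℚ) ≤ room v r (L i) (L j) ↔ (y i - y j) ^ 2 ≤ R := by
      rw [← sub_nonneg (a := R), ← hroom]
      exact_mod_cast Iff.rfl
    have e2 : (y i - y j) ^ 2 ≤ R →
        ((lo v (L i) - hi v (L j) ≤ 0 ∨ (lo v (L i) - hi v (L j)) ^ 2 ≤ room v r (L i) (L j)) ↔
        l i - u j ≤ √(R - (y i - y j) ^ 2)) := by
      intro h
      rw [le_sqrt_iff_test _ _ (by linarith), ← hroom]
      simp only [l, u]
      constructor
      · rintro (h | h)
        · left; exact_mod_cast h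
        · right; exact_mod_cast h
      · rintro (h | h)
        · left; exact_mod_cast h
        · right; exact_mod_cast h
    constructor
    · rintro ⟨h1, h2⟩
      exact ⟨e1.1 h1, (e2 (e1.1 h1)).1 h2⟩
    · rintro ⟨h1, h2⟩
      exact ⟨e1.2 h1, (e2 h1).2 h2⟩
  have htriple : (∀ i j, (y i - y j) ^ 2 ≤ R) → ∀ i k j, (TripleTest v r (L i) (L k) (L j) ↔
      l i - u j ≤ √(R - (y i - y k) ^ 2) + √(R - (y k - y j) ^ 2)) := by
    intro hy i k j
    unfold TripleTest
    rw [le_sqrt_add_iff_test _ _ _ (by linarith [hy i k]) (by linarith [hy k j]), ← hroom, ← hroom]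
    simp only [l, u]
    constructor
    · rintro (h | h | h)
      · left; exact_mod_cast h
      · right; left; exact_mod_cast h
      · right; right; exact_mod_cast h
    · rintro (h | h | h)
      · left; exact_mod_cast h
      · right; left; exact_mod_cast h
      · right; right; exact_mod_cast h
  constructor
  · -- a selection passes all tests
    rintro ⟨p, hp, hd⟩
    have hx : ∀ i, l i ≤ X v (p i) ∧ X v (p i) ≤ u i ∧ Y v (p i) = y i := by
      intro i
      obtain ⟨a, b, ha, hb, hab, he⟩ := hp i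
      rw [← he, X_comb, Y_comb, hy1, hy2, hl, hu]
      refine ⟨?_, ?_, ?_⟩
      · have h1 := min_le_left (X v (pt (L i).1)) (X v (pt (L i).2))
        have h2 := min_le_right (X v (pt (L i).1)) (X v (pt (L i).2))
        have h3 := mul_le_mul_of_nonneg_left h1 ha
        have h4 := mul_le_mul_of_nonneg_left h2 hb
        have h5 : a * min (X v (pt (L i).1)) (X v (pt (L i).2)) +
          b * min (X v (pt (L i).1)) (X v (pt (L i).2)) =
            min (X v (pt (L i).1)) (X v (pt (L i).2)) := by rw [← add_mul, hab, one_mul]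
        linarith
      · have h1 := le_max_left (X v (pt (L i).1)) (X v (pt (L i).2))
        have h2 := le_max_right (X v (pt (L i).1)) (X v (pt (L i).2))
        have h3 := mul_le_mul_of_nonneg_left h1 ha
        have h4 := mul_le_mul_of_nonneg_left h2 hb
        have h5 : a * max (X v (pt (L i).1)) (X v (pt (L i).2)) +
          b * max (X v (pt (L i).1)) (X v (pt (L i).2)) =
            max (X v (pt (L i).1)) (X v (pt (L i).2)) := by rw [← add_mul, hab, one_mul]
        linarith
      · rw [← add_mul, hab, one_mul]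
    have hdist : ∀ i j, (X v (p i) - X v (p j)) ^ 2 + (y i - y j) ^ 2 ≤ R := by
      intro i j
      have h1 := dist_sq v (p i) (p j)
      rw [(hx i).2.2, (hx j).2.2] at h1
      rw [← h1, hR]
      apply mul_le_mul_of_nonneg_left _ hq.le
      exact pow_le_pow_left₀ dist_nonneg (hd i j) 2
    have hyR : ∀ i j, (y i - y j) ^ 2 ≤ R := fun i j => by
      have := hdist i j
      nlinarith [sq_nonneg (X v (p i) - X v (p j))]
    have hsq : ∀ i j, X v (p i) - X v (p j) ≤ √(R - (y i - y j) ^ 2) := by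
      intro i j
      apply Real.le_sqrt_of_sq_le
      have := hdist i j
      linarith
    refine ⟨fun i j => (hpair i j).2 ⟨hyR i j, ?_⟩, fun i k j => (htriple hyR i k j).2 ?_⟩
    · have := hsq i j
      have := (hx i).1
      have := (hx j).2.1
      linarith
    · have := hsq i k
      have := hsq k j
      have := (hx i).1
      have := (hx j).2.1
      linarith
  · -- all tests succeed
    rintro ⟨hP, hT⟩
    have hyR : ∀ i j, (y i - y j) ^ 2 ≤ R := fun i j => ((hpair i j).1 (hP i j)).1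
    have h1 : ∀ i j, l i - √(R - (y i - y j) ^ 2) ≤ u j := fun i j => by
      have := ((hpair i j).1 (hP i j)).2
      linarith
    have h2 : ∀ i k j, l i - √(R - (y i - y k) ^ 2) - √(R - (y k - y j) ^ 2) ≤ u j :=
      fun i k j => by
        have := (htriple hyR i k j).1 (hT i k j)
        linarith
    obtain ⟨x, hx, hxx⟩ := difference_system l u (fun i j => √(R - (y i - y j) ^ 2)) hlu
      (fun i j k m => four_point R (y i) (y j) (y k) (y m) hR0 (hyR _ _) (hyR _ _) (hyR _ _)
        (hyR _ _) (hyR _ _)) h1 h2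
    have hex : ∀ i, ∃ z : ℂ, z ∈ segment ℝ (pt (L i).1) (pt (L i).2) ∧ X v z = x i ∧
        Y v z = y i := by
      intro i
      have hmem : x i ∈ segment ℝ (X v (pt (L i).1)) (X v (pt (L i).2)) := by
        rw [segment_eq_uIcc]
        change x i ∈ Set.Icc (min _ _) (max _ _)
        rw [← hl, ← hu]
        exact hx i
      obtain ⟨a, b, ha, hb, hab, he⟩ := hmem
      refine ⟨a • pt (L i).1 + b • pt (L i).2, ⟨a, b, ha, hb, hab, rfl⟩, ?_, ?_⟩
      · rw [X_comb, ← he]
        rfl
      · rw [Y_comb, hy1, hy2, ← add_mul, hab, one_mul]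
    choose p hp1 hp2 hp3 using hex
    refine ⟨p, hp1, ?_⟩
    intro i j
    have h3 := dist_sq v (p i) (p j)
    rw [hp2, hp2, hp3, hp3] at h3
    have h4 : (x i - x j) ^ 2 ≤ R - (y i - y j) ^ 2 := by
      have h5 : |x i - x j| ≤ √(R - (y i - y j) ^ 2) := by
        rw [abs_le]
        refine ⟨?_, hxx i j⟩
        have := hxx j i
        have e : (y j - y i) ^ 2 = (y i - y j) ^ 2 := by ring
        rw [e] at this
        linarith
      have h6 := pow_le_pow_left₀ (abs_nonneg _) h5 2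
      rwa [Real.sq_sqrt (by linarith [hyR i j]), sq_abs] at h6
    have h7 : dist (p i) (p j) ^ 2 ≤ (r : ℝ) ^ 2 := by
      have : ((v.1 : ℝ) ^ 2 + (v.2 : ℝ) ^ 2) * dist (p i) (p j) ^ 2 ≤
          ((v.1 : ℝ) ^ 2 + (v.2 : ℝ) ^ 2) * (r : ℝ) ^ 2 := by
        rw [h3, ← hR]
        linarith
      exact le_of_mul_le_mul_left this hq
    exact le_of_sq_le_sq h7 hr'

end Pool.Agent.Results.MP_705ba2_lc.ParallelExact
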